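import Pool.Agent.helper60.DB.SpecC

/-!
# Row bc:C1 (MP_fb2c2a_nt)
-/

set_option autoImplicit false

namespace Pool.Agent.helper60.DB

open Polynomial Finset

theorem C1 (h1 : YE_stmt) (h2 : CO_stmt) (h3 : XD_stmt) : C1_stmt := by
  intro R k _ _ _ _ p m _ _ q hq hp5 hpm A B A' B' π α y w g u N D hy hw hM hπ hD0 hDg hN hD
  have h2u : IsUnit (2 : R) := by
    apply hq.unit
    rw [map_ofNat]
    intro h
    have h4 : ((2 : ℕ) : k) = 0 := by exact_mod_cast h
    rw [CharP.cast_eq_zero_iff k p] at h4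
    have := Nat.le_of_dvd (by norm_num) h4
    omega
  obtain ⟨y', w', hy', hw', hc'⟩ := h1 R h2u A' B'
  have hco := h2 R h2u A B A' B' π y w g u y' w' m hy hw hy' hw' hM
  obtain ⟨hx1, hx0⟩ := h3 R k p m q hq hp5 hpm g N D hD0 hDg hN hD
  have hsum : (p : R) ^ 3 ∣ (∑ j ∈ range (m + 1), PowerSeries.coeff j w'
      * PowerSeries.coeff m (PowerSeries.X ^ j * g ^ (2 * j) * (g + EE g))) - p * N.coeff m := by
    rw [Finset.sum_range_succ', add_sub_assoc]
    refine dvd_add (Finset.dvd_sum fun j hj => ?_) ?_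
    · rw [Finset.mem_range] at hj
      exact dvd_mul_of_dvd_right (hx1 (j + 1) (by omega) (by omega)) _
    · have : PowerSeries.coeff 0 w' = 1 := by
        rw [PowerSeries.coeff_zero_eq_constantCoeff_apply]
        exact hc'
      rw [this, one_mul]
      exact hx0
  rw [← hco] at hsum
  obtain ⟨r, hr⟩ := hsum
  have hp0 : (p : R) ≠ 0 := Nat.cast_ne_zero.2 (by omega)
  refine ⟨α * r, mul_left_cancel₀ hp0 ?_⟩
  linear_combination α * hr - PowerSeries.coeff m w * hπ

end Pool.Agent.helper60.DB
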